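import Pool.Agent.H700Z.ORDefs
import Pool.Agent.H700Z.ORCore

namespace Pool.Agent.Results.MP_d3a611_gt.ANoCurvedCayley

open Pool.Agent.H700Z.OR

/-- Every Cayley graph of the discrete Heisenberg group has an edge of negative
Ollivier-Ricci curvature. -/
theorem result (S : Finset Heis) (hsymm : ∀ s ∈ S, s⁻¹ ∈ S) (h1 : (1 : Heis) ∉ S)
    (hgen : Subgroup.closure (S : Set Heis) = ⊤) :
    ∃ x y : Heis, (SimpleGraph.mulCayley (S : Set Heis)).Adj x y ∧
      kappa (SimpleGraph.mulCayley (S : Set Heis)) x y < 0 :=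
  heis S hsymm h1 hgen

end Pool.Agent.Results.MP_d3a611_gt.ANoCurvedCayley
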